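import Mathlib
import Pool.Agent.H964R3.Sep

/-!
# Linear relations among power products of arbitrary polynomials in one variable
-/

set_option autoImplicit false

namespace Pool.Agent.TH710.FF

open Polynomial Pool.Agent.H964R3

variable {K : Type*} [Field K] [CharZero K] [IsAlgClosed K]

omit [CharZero K] in
theorem fac (g : K[X]) (R : Finset K) (hR : ∀ r, r ∈ g.roots → r ∈ R) :
    g = C g.leadingCoeff * ∏ r ∈ R, (X - C r) ^ g.rootMultiplicity r := by
  classical
  conv_lhs => rw [(IsAlgClosed.splits g).eq_prod_roots]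
  congr 1
  rw [Finset.prod_multiset_map_count]
  have hR' : g.roots.toFinset ⊆ R := fun r hr => hR r (Multiset.mem_toFinset.1 hr)
  rw [← Finset.prod_subset hR']
  · exact Finset.prod_congr rfl fun r _ => by rw [count_roots]
  · intro r _ hr
    rw [← count_roots, Multiset.count_eq_zero.2 (fun h => hr (Multiset.mem_toFinset.2 h)),
      pow_zero]

omit [CharZero K] in
theorem fac_prod {p : ℕ} (g : Fin p → K[X]) (R : Finset K) (hR : ∀ j, ∀ r ∈ (g j).roots, r ∈ R)
    (e : Fin p → ℕ) :
    ∏ j, g j ^ e j = C (∏ j, (g j).leadingCoeff ^ e j) *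
      ∏ r ∈ R, (X - C r) ^ (∑ j, e j * (g j).rootMultiplicity r) := by
  have h1 : ∀ j, g j ^ e j = C ((g j).leadingCoeff ^ e j) *
      ∏ r ∈ R, (X - C r) ^ (e j * (g j).rootMultiplicity r) := by
    intro j
    conv_lhs => rw [fac (g j) R (hR j)]
    rw [mul_pow, ← C_pow, ← Finset.prod_pow]
    congr 1
    refine Finset.prod_congr rfl fun r _ => ?_
    rw [← pow_mul, mul_comm]
  rw [Finset.prod_congr rfl fun j _ => h1 j, Finset.prod_mul_distrib, ← map_prod,
    Finset.prod_comm]
  congr 1
  refine Finset.prod_congr rfl fun r _ => ?_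
  rw [Finset.prod_pow_eq_pow_sum]

omit [CharZero K] [IsAlgClosed K] in
theorem mult_prod {p : ℕ} (g : Fin p → K[X]) (hg : ∀ j, g j ≠ 0) (e : Fin p → ℕ) (r : K) :
    (∏ j, g j ^ e j).rootMultiplicity r = ∑ j, e j * (g j).rootMultiplicity r := by
  classical
  have h0 : ∏ j, g j ^ e j ≠ 0 := Finset.prod_ne_zero_iff.2 fun j _ => pow_ne_zero _ (hg j)
  rw [← count_roots, roots_prod _ _ h0, Multiset.count_bind]
  rw [Finset.sum_map_val]
  refine Finset.sum_congr rfl fun j _ => ?_
  rw [roots_pow, Multiset.count_nsmul, count_roots]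

/-- The pattern of the multiplicities of the zeros of polynomials in one variable: the rows are
the zeros. A linear relation among power products splits along the classes of products whose
exponent vectors have a large distance on the pattern. -/
theorem exists_pattern {p : ℕ} (g : Fin p → K[X]) (hg : ∀ j, g j ≠ 0)
    (D : Fin p → ℕ) (hD : ∀ j, (g j).natDegree ≤ D j) :
    ∃ (q : ℕ) (φ : Fin q → Fin p → ℕ), q ≤ ∑ j, D j ∧ (∀ j, ∑ x, φ x j ≤ D j) ∧
      (∀ f : Fin p → ℤ, (∀ x, ∑ j, f j * (φ x j : ℤ) = 0) ↔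
        ∃ c : K, ∏ j, g j ^ (f j).toNat = C c * ∏ j, g j ^ (-(f j)).toNat) ∧
      ∀ (m : ℕ) (e : Fin m → Fin p → ℕ) (lab : Fin m → ℕ),
        (∀ i i', lab i ≠ lab i' → 2 * (m : ℤ) ^ 2 * ∑ j, (D j : ℤ) <
          ∑ x, |∑ j, ((e i j : ℤ) - e i' j) * φ x j|) →
        ∀ c : Fin m → K, ∑ i, C (c i) * ∏ j, g j ^ e i j = 0 → ∀ l : ℕ,
          ∑ i ∈ Finset.univ.filter (fun i => lab i = l), C (c i) * ∏ j, g j ^ e i j = 0 := by
  classical
  set R : Finset K := Finset.univ.biUnion fun j => (g j).roots.toFinset with hRdef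
  have hR : ∀ j, ∀ r ∈ (g j).roots, r ∈ R := fun j r hr =>
    Finset.mem_biUnion.2 ⟨j, Finset.mem_univ j, Multiset.mem_toFinset.2 hr⟩
  set q := R.card with hq
  let ρ : Fin q ≃ R := R.equivFin.symm
  have hprodR : ∀ φ : K → K[X], ∏ r ∈ R, φ r = ∏ x : Fin q, φ (ρ x) := by
    intro φ
    rw [← Finset.prod_coe_sort R, ← Equiv.prod_comp ρ]
  have hsumR : ∀ φ : K → ℕ, ∑ r ∈ R, φ r = ∑ x : Fin q, φ (ρ x) := by
    intro φ
    rw [← Finset.sum_coe_sort R, ← Equiv.sum_comp ρ]
  have hcard : q ≤ ∑ j, D j := by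
    refine Finset.card_biUnion_le.trans (Finset.sum_le_sum fun j _ => ?_)
    exact (Multiset.toFinset_card_le _).trans ((card_roots' _).trans (hD j))
  set φ : Fin q → Fin p → ℕ := fun x j => (g j).rootMultiplicity (ρ x : K) with hφ
  refine ⟨q, φ, hcard, ?_, ?_, ?_⟩
  · intro j
    have h1 : ∑ x, φ x j = ∑ r ∈ R, (g j).roots.count r := by
      rw [hsumR]
      exact Finset.sum_congr rfl fun x _ => (count_roots _).symm
    rw [h1]
    refine le_trans (le_of_eq ?_) ((card_roots' (g j)).trans (hD j))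
    exact Multiset.sum_count_eq_card fun r hr => hR j r hr
  · intro f
    constructor
    · intro hcon
      have h1 : ∏ x : Fin q, (X - C (ρ x : K)) ^
            (∑ j, (f j).toNat * (g j).rootMultiplicity (ρ x : K)) =
          ∏ x : Fin q, (X - C (ρ x : K)) ^
            (∑ j, (-(f j)).toNat * (g j).rootMultiplicity (ρ x : K)) := by
        refine Finset.prod_congr rfl fun x _ => ?_
        congr 1
        have h2 := hcon x
        have h3 : ((∑ j, (f j).toNat * (g j).rootMultiplicity (ρ x : K) : ℕ) : ℤ) -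
            ((∑ j, (-(f j)).toNat * (g j).rootMultiplicity (ρ x : K) : ℕ) : ℤ) =
            ∑ j, f j * (φ x j : ℤ) := by
          push_cast
          rw [← Finset.sum_sub_distrib]
          refine Finset.sum_congr rfl fun j _ => ?_
          rw [← sub_mul, Int.toNat_sub_toNat_neg]
        rw [h2] at h3
        omega
      have h2 := fac_prod g R hR (fun j => (f j).toNat)
      have h3 := fac_prod g R hR (fun j => (-(f j)).toNat)
      rw [hprodR, h1] at h2
      rw [hprodR] at h3
      have hl2 : ∏ j, (g j).leadingCoeff ^ (-(f j)).toNat ≠ 0 :=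
        Finset.prod_ne_zero_iff.2 fun j _ => pow_ne_zero _ (leadingCoeff_ne_zero.2 (hg j))
      refine ⟨(∏ j, (g j).leadingCoeff ^ (f j).toNat) /
        ∏ j, (g j).leadingCoeff ^ (-(f j)).toNat, ?_⟩
      rw [h2, h3, ← mul_assoc, ← C_mul, div_mul_cancel₀ _ hl2]
    · rintro ⟨c, hc⟩ x
      have hne : ∀ e : Fin p → ℕ, ∏ j, g j ^ e j ≠ 0 := fun e =>
        Finset.prod_ne_zero_iff.2 fun j _ => pow_ne_zero _ (hg j)
      have hc0 : c ≠ 0 := by
        rintro rfl
        rw [C_0, zero_mul] at hc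
        exact hne _ hc
      have h1 := congrArg (rootMultiplicity (ρ x : K)) hc
      rw [← count_roots, ← count_roots, roots_C_mul _ hc0, count_roots, count_roots,
        mult_prod g hg, mult_prod g hg] at h1
      have h3 : ((∑ j, (f j).toNat * (g j).rootMultiplicity (ρ x : K) : ℕ) : ℤ) -
          ((∑ j, (-(f j)).toNat * (g j).rootMultiplicity (ρ x : K) : ℕ) : ℤ) =
          ∑ j, f j * (φ x j : ℤ) := by
        push_cast
        rw [← Finset.sum_sub_distrib]
        refine Finset.sum_congr rfl fun j _ => ?_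
        rw [← sub_mul, Int.toNat_sub_toNat_neg]
      rw [← h3, h1, sub_self]
  · intro m e lab hfar c h l
    set E : Fin m → Fin q → ℕ := fun i x => ∑ j, e i j * (g j).rootMultiplicity (ρ x : K) with hE
    set lc : Fin m → K := fun i => ∏ j, (g j).leadingCoeff ^ e i j with hlc
    have hT : ∀ i, ∏ j, g j ^ e i j = C (lc i) * ∏ x, (X - C (ρ x : K)) ^ E i x := by
      intro i
      rw [fac_prod g R hR, hprodR]
    have hsum : ∀ s : Finset (Fin m), ∑ i ∈ s, C (c i) * ∏ j, g j ^ e i j =
        ∑ i ∈ s, C (c i * lc i) * ∏ x, (X - C (ρ x : K)) ^ E i x := by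
      intro s
      refine Finset.sum_congr rfl fun i _ => ?_
      rw [hT, ← mul_assoc, ← C_mul]
    rw [hsum] at h ⊢
    refine sep (fun x : Fin q => X - C (ρ x : K)) (fun x => natDegree_X_sub_C _) ?_ E lab
      (q * m ^ 2) ?_ m Finset.univ (fun i => c i * lc i) (by simp) (by simp) h l
    · intro x y hxy
      refine isCoprime_X_sub_C_of_isUnit_sub (sub_ne_zero.2 fun h => hxy ?_).isUnit
      exact ρ.injective (Subtype.ext h)
    · intro i i' hii
      have h1 := hfar i i' hii
      have h2 : ∀ x, |∑ j, ((e i j : ℤ) - e i' j) * φ x j| =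
          ((E i x - E i' x : ℕ) : ℤ) + ((E i' x - E i x : ℕ) : ℤ) := by
        intro x
        have h3 : ∑ j, ((e i j : ℤ) - e i' j) * φ x j = (E i x : ℤ) - E i' x := by
          rw [hE]
          push_cast
          rw [← Finset.sum_sub_distrib]
          exact Finset.sum_congr rfl fun j _ => by rw [sub_mul]
        rw [h3]
        rcases le_total (E i x) (E i' x) with h4 | h4
        · rw [Nat.sub_eq_zero_of_le h4, abs_of_nonpos (by omega)]
          omega
        · rw [Nat.sub_eq_zero_of_le h4, abs_of_nonneg (by omega)]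
          omega
      rw [Finset.sum_congr rfl fun x _ => h2 x, Finset.sum_add_distrib] at h1
      have h3 : (q : ℤ) * m ^ 2 ≤ (m : ℤ) ^ 2 * ∑ j, (D j : ℤ) := by
        rw [mul_comm]
        refine mul_le_mul_of_nonneg_left ?_ (by positivity)
        exact_mod_cast hcard
      by_contra hcon
      push Not at hcon
      have h4 : ((∑ x, (E i x - E i' x) : ℕ) : ℤ) ≤ ((q * m ^ 2 : ℕ) : ℤ) := by
        exact_mod_cast hcon.1
      have h5 : ((∑ x, (E i' x - E i x) : ℕ) : ℤ) ≤ ((q * m ^ 2 : ℕ) : ℤ) := by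
        exact_mod_cast hcon.2
      rw [Nat.cast_sum] at h4 h5
      push_cast at h4 h5
      linarith

end Pool.Agent.TH710.FF
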