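import Mathlib
import Pool.Agent.TH710.FF.Uni

/-!
# Linear relations among power products on the generator split along far classes
-/

set_option autoImplicit false

namespace Pool.Agent.TH710.FF

open MvPolynomial

section split

variable {F : Type} [Field F] {n : ℕ}

/-- the point of the generator with origin `σ` and seeds `y`, `z` -/
def pt {v : ℕ} (σ : Fin n → F) (y z : Fin v → F) (i : Fin n) : F :=
  σ i + ∑ t, y t * ∏ k ∈ Finset.univ.erase i, (z t - ((k : ℕ) : F))

/-- `f` vanishes on the generator -/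
def Zer (σ : Fin n → F) (v : ℕ) (f : MvPolynomial (Fin n) F) : Prop :=
  ∀ y z : Fin v → F, eval (pt σ y z) f = 0

/-- the generic point -/
noncomputable def gp {v : ℕ} (σ : Fin n → F) (ι ζ : Fin v → Fin v ⊕ Fin v ⊕ Fin v) (i : Fin n) :
    MvPolynomial (Fin v ⊕ Fin v ⊕ Fin v) F :=
  C (σ i) + ∑ t, X (ι t) * ∏ k ∈ Finset.univ.erase i, (X (ζ t) - C ((k : ℕ) : F))

theorem eval_gp {v : ℕ} (σ : Fin n → F) (ι ζ : Fin v → Fin v ⊕ Fin v ⊕ Fin v)
    (w : Fin v ⊕ Fin v ⊕ Fin v → F) (f : MvPolynomial (Fin n) F) :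
    eval w (aeval (gp σ ι ζ) f) = eval (pt σ (w ∘ ι) (w ∘ ζ)) f := by
  have h1 : eval w (aeval (gp σ ι ζ) f) = eval (fun i => eval w (gp σ ι ζ i)) f := by
    rw [← MvPolynomial.coe_aeval_eq_eval, ← MvPolynomial.coe_aeval_eq_eval]
    change aeval w (aeval (gp σ ι ζ) f) = _
    rw [← AlgHom.comp_apply, comp_aeval]
    rfl
  rw [h1]
  congr 2
  funext i
  simp [gp, pt]

/-- the line through two points -/
noncomputable def ln {v : ℕ} (σ : Fin n → F) (y y' z : Fin v → F) (i : Fin n) : Polynomial F :=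
  Polynomial.C (pt σ y z i) + Polynomial.X * Polynomial.C (pt σ y' z i - pt σ y z i)

theorem eval_ln {v : ℕ} (σ : Fin n → F) (y y' z : Fin v → F) (s : F)
    (f : MvPolynomial (Fin n) F) :
    (aeval (ln σ y y' z) f).eval s = eval (pt σ (fun t => y t + s * (y' t - y t)) z) f := by
  have h1 : (aeval (ln σ y y' z) f).eval s =
      eval (fun i => (ln σ y y' z i).eval s) f := by
    rw [← MvPolynomial.coe_aeval_eq_eval, ← Polynomial.coe_aeval_eq_eval]
    change (Polynomial.aeval s) (aeval (ln σ y y' z) f) = _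
    rw [← AlgHom.comp_apply, comp_aeval]
    simp only [Polynomial.coe_aeval_eq_eval]
    rfl
  rw [h1]
  congr 2
  funext i
  simp only [ln, Polynomial.eval_add, Polynomial.eval_C, Polynomial.eval_mul, Polynomial.eval_X, pt]
  have h2 : ∀ t, (y t + s * (y' t - y t)) * ∏ k ∈ Finset.univ.erase i, (z t - ((k : ℕ) : F)) =
      y t * (∏ k ∈ Finset.univ.erase i, (z t - ((k : ℕ) : F))) +
        s * (y' t * (∏ k ∈ Finset.univ.erase i, (z t - ((k : ℕ) : F))) -
          y t * ∏ k ∈ Finset.univ.erase i, (z t - ((k : ℕ) : F))) := fun t => by ring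
  rw [Finset.sum_congr rfl fun t _ => h2 t, Finset.sum_add_distrib, ← Finset.mul_sum,
    Finset.sum_sub_distrib]
  ring

theorem ln_degree {v : ℕ} (σ : Fin n → F) (y y' z : Fin v → F) (f : MvPolynomial (Fin n) F) :
    (aeval (ln σ y y' z) f).natDegree ≤ f.totalDegree := by
  refine (aeval_natDegree_le f le_rfl (ln σ y y' z) (n := 1) fun i => ?_).trans
    (by rw [mul_one])
  unfold ln
  refine (Polynomial.natDegree_add_le _ _).trans (max_le ?_ ?_)
  · rw [Polynomial.natDegree_C]; exact Nat.zero_le _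
  · refine Polynomial.natDegree_mul_le.trans ?_
    rw [Polynomial.natDegree_C, add_zero]
    exact Polynomial.natDegree_X_le

theorem pt_append {v : ℕ} (σ : Fin n → F) (y z z' : Fin v → F) :
    pt σ (Fin.append y 0) (Fin.append z z') = pt σ y z := by
  funext i
  simp only [pt, Fin.sum_univ_add, Fin.append_left, Fin.append_right, Pi.zero_apply, zero_mul,
    Finset.sum_const_zero, add_zero]

theorem pt_append' {v : ℕ} (σ : Fin n → F) (y z z' : Fin v → F) :
    pt σ (Fin.append 0 y) (Fin.append z z') = pt σ y z' := by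
  funext i
  simp only [pt, Fin.sum_univ_add, Fin.append_left, Fin.append_right, Pi.zero_apply, zero_mul,
    Finset.sum_const_zero, zero_add]

theorem zer_mono {σ : Fin n → F} {v w : ℕ} (hvw : v ≤ w) {f : MvPolynomial (Fin n) F}
    (h : Zer σ w f) : Zer σ v f := by
  obtain ⟨u, rfl⟩ := Nat.exists_eq_add_of_le hvw
  intro y z
  have h1 := h (Fin.append y 0) (Fin.append z 0)
  have h2 : pt σ (Fin.append y (0 : Fin u → F)) (Fin.append z 0) = pt σ y z := by
    funext i
    simp [pt, Fin.sum_univ_add]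
  rwa [h2] at h1

variable [CharZero F]

/-- the difference of the cross products -/
noncomputable def Wr {v : ℕ} (σ : Fin n → F) (P Q : MvPolynomial (Fin n) F) :
    MvPolynomial (Fin v ⊕ Fin v ⊕ Fin v) F :=
  aeval (gp σ Sum.inl (Sum.inr ∘ Sum.inr)) P * aeval (gp σ (Sum.inr ∘ Sum.inl) (Sum.inr ∘ Sum.inr)) Q
    - aeval (gp σ (Sum.inr ∘ Sum.inl) (Sum.inr ∘ Sum.inr)) P *
      aeval (gp σ Sum.inl (Sum.inr ∘ Sum.inr)) Q

omit [CharZero F] in
/-- Doubling of the seeds: the restriction to the lines in the directions of the `y`. -/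
theorem Wr_ne {v : ℕ} (σ : Fin n → F) (P Q : MvPolynomial (Fin n) F)
    (h : ∀ a b : F, a ≠ 0 ∨ b ≠ 0 → ¬ Zer σ v (C a * P - C b * Q)) :
    (Wr σ P Q : MvPolynomial (Fin (v + v) ⊕ Fin (v + v) ⊕ Fin (v + v)) F) ≠ 0 := by
  intro h0
  have h1 := h 1 0 (Or.inl one_ne_zero)
  unfold Zer at h1
  push Not at h1
  obtain ⟨y2, z2, h2⟩ := h1
  rw [C_1, one_mul, C_0, zero_mul, sub_zero] at h2
  have h3 := h (eval (pt σ y2 z2) Q) (eval (pt σ y2 z2) P) (Or.inr h2)
  unfold Zer at h3
  push Not at h3
  obtain ⟨y1, z1, h4⟩ := h3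
  apply h4
  set w : Fin (v + v) ⊕ Fin (v + v) ⊕ Fin (v + v) → F :=
    Sum.elim (Fin.append y1 0) (Sum.elim (Fin.append 0 y2) (Fin.append z1 z2)) with hw
  have h5 := congrArg (eval w) h0
  rw [Wr, map_sub, map_mul, map_mul, eval_gp, eval_gp, eval_gp, eval_gp, map_zero] at h5
  have e1 : w ∘ Sum.inl = Fin.append y1 0 := rfl
  have e2 : w ∘ (Sum.inr ∘ Sum.inl) = Fin.append 0 y2 := rfl
  have e3 : w ∘ (Sum.inr ∘ Sum.inr) = Fin.append z1 z2 := rfl
  rw [e1, e2, e3, pt_append, pt_append'] at h5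
  rw [map_sub, map_mul, map_mul, eval_C, eval_C]
  linear_combination h5

/-- A linear relation among power products of arbitrary polynomials, on the generator with twice
the number of seeds, splits along classes of products which are far for all patterns. -/
theorem split {m p v : ℕ} (σ : Fin n → F) (g : Fin p → MvPolynomial (Fin n) F)
    (hg : ∀ j, ¬ Zer σ (v + v) (g j)) (e : Fin m → Fin p → ℕ) (lab : Fin m → ℕ)
    (hdich : ∀ f : Fin p → ℤ,
      (∃ c : F, ∏ j, g j ^ (f j).toNat = C c * ∏ j, g j ^ (-(f j)).toNat) ∨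
      ∀ a b : F, a ≠ 0 ∨ b ≠ 0 →
        ¬ Zer σ v (C a * ∏ j, g j ^ (f j).toNat - C b * ∏ j, g j ^ (-(f j)).toNat))
    (hfar : ∀ i i', lab i ≠ lab i' → ∀ (q : ℕ) (φ : Fin q → Fin p → ℕ),
      (∀ j, ∑ x, φ x j ≤ (g j).totalDegree) →
      (∀ f : Fin p → ℤ, (∀ x, ∑ j, f j * (φ x j : ℤ) = 0) ↔
        ∃ c : F, ∏ j, g j ^ (f j).toNat = C c * ∏ j, g j ^ (-(f j)).toNat) →
      2 * (m : ℤ) ^ 2 * ∑ j, ((g j).totalDegree : ℤ) <
        ∑ x, |∑ j, ((e i j : ℤ) - e i' j) * φ x j|)
    (c : Fin m → F) (h : Zer σ (v + v) (∑ i, C (c i) * ∏ j, g j ^ e i j)) (l : ℕ) :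
    Zer σ (v + v) (∑ i ∈ Finset.univ.filter (fun i => lab i = l), C (c i) * ∏ j, g j ^ e i j) := by
  classical
  have hinf : Infinite F := Infinite.of_injective _ (Nat.cast_injective (R := F))
  set ev := fun P : MvPolynomial (Fin n) F =>
    (aeval (gp σ Sum.inl (Sum.inr ∘ Sum.inr)) P :
      MvPolynomial (Fin (v + v) ⊕ Fin (v + v) ⊕ Fin (v + v)) F) with hev
  -- a test vector for every pattern that is not allowed
  set Bad : ∀ q : ℕ, (Fin q → Fin p → ℕ) → (Fin p → ℤ) → Prop := fun q φ f =>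
    (∀ x, ∑ j, f j * (φ x j : ℤ) = 0) ∧
      ¬ ∃ c : F, ∏ j, g j ^ (f j).toNat = C c * ∏ j, g j ^ (-(f j)).toNat with hBad
  set tv : ∀ q : ℕ, (Fin q → Fin p → ℕ) → Fin p → ℤ := fun q φ =>
    if h : ∃ f, Bad q φ f then h.choose else 0 with htv
  have htvs : ∀ q φ, (∃ f, Bad q φ f) → Bad q φ (tv q φ) := by
    intro q φ h
    simp only [htv]
    rw [dif_pos h]
    exact h.choose_spec
  set Dt := ∑ j, (g j).totalDegree with hDt
  set W : MvPolynomial (Fin (v + v) ⊕ Fin (v + v) ⊕ Fin (v + v)) F :=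
    (∏ q ∈ Finset.range (Dt + 1), ∏ φ : Fin q → Fin p → Fin (Dt + 1),
      if ∃ f, Bad q (fun x j => (φ x j : ℕ)) f then
        Wr σ (∏ j, g j ^ (tv q (fun x j => (φ x j : ℕ)) j).toNat)
          (∏ j, g j ^ (-(tv q (fun x j => (φ x j : ℕ)) j)).toNat) else 1) *
      ∏ j, ev (g j) with hW
  have hevne : ∀ P, ¬ Zer σ (v + v) P → ev P ≠ 0 := by
    intro P hP h0
    apply hP
    intro y z
    have h1 := congrArg (eval (Sum.elim y (Sum.elim y z))) h0
    rw [hev, map_zero] at h1
    simp only at h1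
    rw [eval_gp] at h1
    exact h1
  have hW0 : W ≠ 0 := by
    rw [hW]
    refine mul_ne_zero ?_ (Finset.prod_ne_zero_iff.2 fun j _ => hevne _ (hg j))
    refine Finset.prod_ne_zero_iff.2 fun q _ => Finset.prod_ne_zero_iff.2 fun φ _ => ?_
    by_cases hb : ∃ f, Bad q (fun x j => (φ x j : ℕ)) f
    · rw [if_pos hb]
      exact Wr_ne σ _ _ ((hdich _).resolve_left (htvs q _ hb).2)
    · rw [if_neg hb]
      exact one_ne_zero
  set S := ∑ i ∈ Finset.univ.filter (fun i => lab i = l), C (c i) * ∏ j, g j ^ e i j with hS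
  have key : ∀ w, eval w W ≠ 0 → eval w (ev S) = 0 := by
    intro w hw
    set y := w ∘ Sum.inl with hy
    set y' := w ∘ (Sum.inr ∘ Sum.inl) with hy'
    set z := w ∘ (Sum.inr ∘ Sum.inr) with hz
    rw [hW, map_mul, mul_ne_zero_iff, map_prod, map_prod, Finset.prod_ne_zero_iff,
      Finset.prod_ne_zero_iff] at hw
    obtain ⟨hw1, hw2⟩ := hw
    have hgne : ∀ j, eval (pt σ y z) (g j) ≠ 0 := by
      intro j
      have := hw2 j (Finset.mem_univ j)
      rw [hev] at this
      simp only at this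
      rwa [eval_gp] at this
    have hpair : ∀ (q : ℕ) (φ : Fin q → Fin p → ℕ), q ≤ Dt → (∀ x j, φ x j ≤ Dt) →
        (∃ f, Bad q φ f) →
        eval (pt σ y z) (∏ j, g j ^ (tv q φ j).toNat) *
          eval (pt σ y' z) (∏ j, g j ^ (-(tv q φ j)).toNat) ≠
        eval (pt σ y' z) (∏ j, g j ^ (tv q φ j).toNat) *
          eval (pt σ y z) (∏ j, g j ^ (-(tv q φ j)).toNat) := by
      intro q φ hq hφ hb
      have h1 := hw1 q (Finset.mem_range.2 (Nat.lt_succ_of_le hq))
      rw [map_prod, Finset.prod_ne_zero_iff] at h1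
      have h2 := h1 (fun x j => ⟨φ x j, Nat.lt_succ_of_le (hφ x j)⟩) (Finset.mem_univ _)
      simp only at h2
      rw [if_pos hb, Wr, map_sub, map_mul, map_mul, eval_gp, eval_gp, eval_gp, eval_gp] at h2
      exact sub_ne_zero.1 h2
    set K := AlgebraicClosure F
    have hchK : CharZero K := charZero_of_injective_algebraMap (algebraMap F K).injective
    set G : Fin p → Polynomial F := fun j => aeval (ln σ y y' z) (g j) with hG
    set GK : Fin p → Polynomial K := fun j => (G j).map (algebraMap F K) with hGK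
    have e0 : ∀ P : MvPolynomial (Fin n) F, (aeval (ln σ y y' z) P).eval 0 =
        eval (pt σ y z) P := by
      intro P
      rw [eval_ln]
      congr 2
      funext i
      simp
    have e1 : ∀ P : MvPolynomial (Fin n) F, (aeval (ln σ y y' z) P).eval 1 =
        eval (pt σ y' z) P := by
      intro P
      rw [eval_ln]
      congr 2
      funext i
      simp
    have hG0 : ∀ j, G j ≠ 0 := by
      intro j h0
      apply hgne j
      rw [← e0]
      show (G j).eval 0 = 0
      rw [h0, Polynomial.eval_zero]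
    have hinj : Function.Injective (Polynomial.map (algebraMap F K)) :=
      Polynomial.map_injective _ (algebraMap F K).injective
    have hmapc : ∀ s : Finset (Fin m), ∑ i ∈ s, Polynomial.C (algebraMap F K (c i)) *
        ∏ j, GK j ^ e i j = (aeval (ln σ y y' z)
          (∑ i ∈ s, C (c i) * ∏ j, g j ^ e i j)).map (algebraMap F K) := by
      intro s
      rw [map_sum, Polynomial.map_sum]
      refine Finset.sum_congr rfl fun i _ => ?_
      rw [map_mul, map_prod, Polynomial.map_mul, Polynomial.map_prod, algHom_C]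
      congr 1
      · rw [Polynomial.algebraMap_eq, Polynomial.map_C]
      · refine Finset.prod_congr rfl fun j _ => ?_
        rw [map_pow, Polynomial.map_pow]
    have hprod : ∀ u : Fin p → ℕ, ∏ j, GK j ^ u j =
        (aeval (ln σ y y' z) (∏ j, g j ^ u j)).map (algebraMap F K) := by
      intro u
      rw [map_prod, Polynomial.map_prod]
      refine Finset.prod_congr rfl fun j _ => ?_
      rw [map_pow, Polynomial.map_pow]
    have hrel : ∑ i, Polynomial.C (algebraMap F K (c i)) * ∏ j, GK j ^ e i j = 0 := by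
      rw [hmapc]
      have h1 : aeval (ln σ y y' z) (∑ i, C (c i) * ∏ j, g j ^ e i j) = 0 := by
        refine Polynomial.funext fun s => ?_
        rw [eval_ln, Polynomial.eval_zero]
        exact h _ z
      rw [h1, Polynomial.map_zero]
    obtain ⟨q, φ, hq, hcol, hiff, hsep⟩ := exists_pattern GK
      (fun j h0 => hG0 j (hinj (by rw [Polynomial.map_zero]; exact h0)))
      (fun j => (g j).totalDegree) (fun j => (Polynomial.natDegree_map_le).trans
        (ln_degree σ y y' z (g j)))
    have hφle : ∀ x j, φ x j ≤ Dt := by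
      intro x j
      refine (Finset.single_le_sum (f := fun x => φ x j) (fun _ _ => Nat.zero_le _)
        (Finset.mem_univ x)).trans ((hcol j).trans ?_)
      exact Finset.single_le_sum (f := fun j => (g j).totalDegree) (fun _ _ => Nat.zero_le _)
        (Finset.mem_univ j)
    have hpat : ∀ f : Fin p → ℤ, (∀ x, ∑ j, f j * (φ x j : ℤ) = 0) ↔
        ∃ c : F, ∏ j, g j ^ (f j).toNat = C c * ∏ j, g j ^ (-(f j)).toNat := by
      intro f
      constructor
      · intro hf
        by_contra hne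
        have hb : ∃ f, Bad q φ f := ⟨f, hf, hne⟩
        obtain ⟨a, ha⟩ := (hiff _).1 (htvs q φ hb).1
        apply hpair q φ hq hφle hb
        rw [hprod, hprod] at ha
        have a0 := congrArg (Polynomial.eval 0) ha
        have a1 := congrArg (Polynomial.eval 1) ha
        rw [Polynomial.eval_mul, Polynomial.eval_C, ← map_zero (algebraMap F K),
          Polynomial.eval_map_apply, Polynomial.eval_map_apply, e0, e0] at a0
        rw [Polynomial.eval_mul, Polynomial.eval_C, ← map_one (algebraMap F K),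
          Polynomial.eval_map_apply, Polynomial.eval_map_apply, e1, e1] at a1
        apply (algebraMap F K).injective
        rw [map_mul, map_mul, a0, a1]
        ring
      · rintro ⟨a, ha⟩
        refine (hiff f).2 ⟨algebraMap F K a, ?_⟩
        rw [hprod, hprod, ha, map_mul, Polynomial.map_mul, algHom_C, Polynomial.algebraMap_eq,
          Polynomial.map_C]
    have hus := hsep m e lab (fun i i' hii => hfar i i' hii q φ hcol hpat)
      (fun i => algebraMap F K (c i)) hrel l
    rw [hmapc, ← hS] at hus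
    have h1 : aeval (ln σ y y' z) S = 0 := hinj (by rw [hus, Polynomial.map_zero])
    have h2 := e0 S
    rw [h1, Polynomial.eval_zero] at h2
    rw [hev]
    simp only
    rw [eval_gp]
    exact h2.symm
  have hWS : W * ev S = 0 := by
    refine MvPolynomial.funext fun w => ?_
    rw [map_mul, map_zero]
    by_cases hw : eval w W = 0
    · rw [hw, zero_mul]
    · rw [key w hw, mul_zero]
  have hS0 : ev S = 0 := (mul_eq_zero.1 hWS).resolve_left hW0
  intro y z
  have h1 := congrArg (eval (Sum.elim y (Sum.elim y z))) hS0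
  rw [hev, map_zero] at h1
  simp only at h1
  rw [eval_gp] at h1
  exact h1

end split

end Pool.Agent.TH710.FF
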