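import Mathlib
import Pool.Agent.TH710.FF.Split
import Pool.Agent.W936.SP.Class

/-!
# Sums of few products of composite polynomials with coefficients in a field of rational functions
-/

set_option autoImplicit false

namespace Pool.Agent.TH710.FF

open MvPolynomial Pool.Agent.H530R2 Pool.Agent.W936.RO Pool.Agent.W936.WB
open Pool.Agent.H626R2.Loc (evG evT)
open Pool.Agent.Results.MP_c2aa42_lc.SumsOfSparseFormulas

section points

variable {F : Type} [Field F] {n v : ℕ}

theorem eval_evT (σ : Fin n → F) (y z : Fin v → F) (f : MvPolynomial (Fin n) F) :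
    eval (Sum.elim y z) (evT F n v (tsl σ f)) = eval (pt σ y z) f := by
  have h1 : eval (Sum.elim y z) (evT F n v (tsl σ f)) =
      eval (fun i => eval (Sum.elim y z) (Pool.Agent.H626R2.Loc.gen F n v i)) (tsl σ f) := by
    rw [← MvPolynomial.coe_aeval_eq_eval, ← MvPolynomial.coe_aeval_eq_eval]
    change aeval (Sum.elim y z) (aeval (Pool.Agent.H626R2.Loc.gen F n v) (tsl σ f)) = _
    rw [← AlgHom.comp_apply, comp_aeval]
    rfl
  rw [h1, eval_tsl]
  congr 2
  funext i
  simp [Pool.Agent.H626R2.Loc.gen, pt, add_comm]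

theorem zer_iff [Infinite F] (σ : Fin n → F) (f : MvPolynomial (Fin n) F) :
    evT F n v (tsl σ f) = 0 ↔ Zer σ v f := by
  constructor
  · intro h y z
    rw [← eval_evT, h, map_zero]
  · intro h
    refine MvPolynomial.funext fun w => ?_
    have h1 := h (w ∘ Sum.inl) (w ∘ Sum.inr)
    rw [← eval_evT, Sum.elim_comp_inl_inr] at h1
    rw [h1, map_zero]

end points

variable {n : ℕ}

theorem evG_zer {β : Fin n → Polynomial ℂ} {v : ℕ} (h : MvPolynomial (Fin n) ℂ) :
    evG ℂ β v h = 0 ↔ Zer (rpt β) v (sext h) := by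
  have hinf : Infinite (RatFunc ℂ) := Infinite.of_injective _ (algebraMap ℂ (RatFunc ℂ)).injective
  rw [← zer_iff, ← map_evB]
  constructor
  · intro h0
    rw [h0, map_zero]
  · intro h0
    exact map_injective _ (IsFractionRing.injective (Polynomial ℂ) (RatFunc ℂ))
      (by rw [h0, map_zero])

/-- The hitting theorem for polynomials in products of composite polynomials whose coefficients
are rational functions of the first seed. -/
theorem sums_hitF (w D κ : ℕ) : ∃ A m : ℕ, ∀ n s t : ℕ, ∀ β : Fin n → Polynomial ℂ,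
    (∀ h : MvPolynomial (Fin n) ℂ, h ≠ 0 → h.support.card ≤ (s + 2) ^ A → aeval β h ≠ 0) →
    ∀ (N : ℕ) (T : Fin N → Multiset (MvPolynomial (Fin n) ℂ)),
    (∀ i, ∀ g ∈ T i, Composite w s D t g) →
    (∀ u : Fin (κ + 1) → Fin N, ¬ AlgebraicIndependent ℂ (fun a => (T (u a)).prod)) →
    ∀ f ∈ Algebra.adjoin (RatFunc ℂ) (Set.range fun i => sext (T i).prod), f ≠ 0 →
      ¬ Zer (rpt β) (m * (t + 1)) f := by
  classical
  by_contra hcon
  push Not at hcon
  choose n_ s_ t_ b_ hb N_ T_ hT_ hdep_ f_ hf_ hf0 hev using fun k => hcon k k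
  have hinf : Infinite (RatFunc ℂ) := Infinite.of_injective _ (algebraMap ℂ (RatFunc ℂ)).injective
  set 𝔎 : Fam (RatFunc ℂ) := bfam n_ s_ b_ hb with h𝔎
  obtain ⟨m, hm⟩ := rank_hit3 (F := RatFunc ℂ) (up 𝔎 D) κ (w + 1) w (nc w κ D) w
    (bd w D + (up 𝔎 D).c0) (Nat.succ_pos w)
  have hmem : ∀ f : MvPolynomial (Fin (n_ m)) ℂ, f.support.card ≤ s_ m →
      sext f ∈ 𝔎.K m (n_ m) 1 := fun f hf => bfam_mem hb m hf
  refine hm (n_ m) m (rVan (b_ m)) (bfam_ok hb D m) (rpt (b_ m)) 1
    ⟨le_rfl, fun j Y => by rw [mul_one]; rfl⟩ (t_ m) (LfD 𝔎 m (n_ m) w D κ) (fun g hg => hg.1)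
    (fun y => LfD.const y) (fun A hA g hg => hg.2 A hA) (f_ m) ?_
    (hf0 m) ?_
  · have he : ∀ S : Multiset (MvPolynomial (Fin (n_ m)) ℂ), (S.map sext).prod = sext S.prod :=
      fun S => (map_multiset_prod (sext (n := n_ m)) S).symm
    refine ⟨N_ m, fun i => (T_ m i).map sext, fun i g hg => ?_, fun u => ?_, ?_⟩
    · obtain ⟨g', hg', rfl⟩ := Multiset.mem_map.1 hg
      exact comp_polyIn hmem (hT_ m i g' hg')
    · simp only [he]
      exact ext_dep (hdep_ m u)
    · simp only [he]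
      exact hf_ m
  · refine (mem_shVan _ (natInj (n_ m)) (rpt (b_ m)) _ _).2 ?_
    by_contra hc
    exact (evT_ne_iff (n_ m) _ _).2 hc ((zer_iff _ _).2 (hev m))

/-- two polynomials that are not proportional over the complex numbers -/
theorem comb_ne {P Q : MvPolynomial (Fin n) ℂ} (hP : P ≠ 0) (hQ : Q ≠ 0)
    (hPQ : ∀ c : ℂ, P ≠ C c * Q) (a b : RatFunc ℂ) (hab : a ≠ 0 ∨ b ≠ 0) :
    C a * sext P - C b * sext Q ≠ 0 := by
  intro h0
  have hP' : sext P ≠ 0 := fun h => hP (ext_inj (by rw [h, map_zero]))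
  have hQ' : sext Q ≠ 0 := fun h => hQ (ext_inj (by rw [h, map_zero]))
  have ha : a ≠ 0 := by
    rintro rfl
    rw [C_0, zero_mul, zero_sub, neg_eq_zero] at h0
    rcases mul_eq_zero.1 h0 with h1 | h1
    · rw [C_eq_zero] at h1
      rcases hab with h2 | h2
      · exact h2 rfl
      · exact h2 h1
    · exact hQ' h1
  obtain ⟨e, he⟩ := MvPolynomial.ne_zero_iff.1 hQ
  have hcoef : ∀ d, a * algebraMap ℂ (RatFunc ℂ) (coeff d P) =
      b * algebraMap ℂ (RatFunc ℂ) (coeff d Q) := by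
    intro d
    have h1 := congrArg (coeff d) h0
    rw [coeff_sub, coeff_C_mul, coeff_C_mul, coeff_map, coeff_map, coeff_zero, sub_eq_zero] at h1
    exact h1
  apply hPQ (coeff e P / coeff e Q)
  ext d
  rw [coeff_C_mul]
  apply (algebraMap ℂ (RatFunc ℂ)).injective
  have he' : algebraMap ℂ (RatFunc ℂ) (coeff e Q) ≠ 0 := by
    rw [Ne, map_eq_zero]; exact he
  apply mul_left_cancel₀ ha
  apply mul_right_cancel₀ he'
  have h1 := hcoef d
  have h2 := hcoef e
  have h3 : algebraMap ℂ (RatFunc ℂ) (coeff e P / coeff e Q * coeff d Q) *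
      algebraMap ℂ (RatFunc ℂ) (coeff e Q) =
      algebraMap ℂ (RatFunc ℂ) (coeff e P) * algebraMap ℂ (RatFunc ℂ) (coeff d Q) := by
    rw [← map_mul, ← map_mul]
    congr 1
    field_simp
  rw [mul_assoc, mul_assoc, h3]
  linear_combination algebraMap ℂ (RatFunc ℂ) (coeff e Q) * h1 -
    algebraMap ℂ (RatFunc ℂ) (coeff d Q) * h2

/-- products of composite polynomials are not made proportional over the field of the rational
functions of the first seed -/
theorem pair_hitF (w D : ℕ) : ∃ A m : ℕ, ∀ n s t : ℕ, ∀ β : Fin n → Polynomial ℂ,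
    (∀ h : MvPolynomial (Fin n) ℂ, h ≠ 0 → h.support.card ≤ (s + 2) ^ A → aeval β h ≠ 0) →
    ∀ S T : Multiset (MvPolynomial (Fin n) ℂ), (∀ g ∈ S, Composite w s D t g ∧ g ≠ 0) →
    (∀ g ∈ T, Composite w s D t g ∧ g ≠ 0) → (∀ c : ℂ, S.prod ≠ C c * T.prod) →
    ∀ a b : RatFunc ℂ, a ≠ 0 ∨ b ≠ 0 →
      ¬ Zer (rpt β) (m * (t + 1)) (C a * sext S.prod - C b * sext T.prod) := by
  classical
  obtain ⟨A, m, hm⟩ := sums_hitF w D 2
  refine ⟨A, m, fun n s t β hβ S T hS hT hST a b hab => ?_⟩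
  have hS0 : S.prod ≠ 0 := fun h => (hS 0 (Multiset.prod_eq_zero_iff.1 h)).2 rfl
  have hT0 : T.prod ≠ 0 := fun h => (hT 0 (Multiset.prod_eq_zero_iff.1 h)).2 rfl
  refine hm n s t β hβ 2 ![S, T] ?_ ?_ _ ?_ (comb_ne hS0 hT0 hST a b hab)
  · intro i g hg
    fin_cases i
    · exact (hS g hg).1
    · exact (hT g hg).1
  · intro u hu
    have h1 : Function.Injective u := fun x y hxy => hu.injective (by simp only [hxy])
    have h2 := Fintype.card_le_of_injective u h1
    rw [Fintype.card_fin, Fintype.card_fin] at h2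
    omega
  · have h0 : ∀ i : Fin 2, sext (![S, T] i).prod ∈ Algebra.adjoin (RatFunc ℂ)
        (Set.range fun i : Fin 2 => sext (![S, T] i).prod) := fun i =>
      Algebra.subset_adjoin (Set.mem_range_self i)
    rw [sub_eq_add_neg, ← neg_mul, ← C_neg]
    exact Subalgebra.add_mem _
      (Subalgebra.mul_mem _ (Subalgebra.algebraMap_mem _ a) (h0 0))
      (Subalgebra.mul_mem _ (Subalgebra.algebraMap_mem _ (-b)) (h0 1))

end Pool.Agent.TH710.FF
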