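import Mathlib
import Pool.Agent.TH710.FF.Hit

/-!
# Sums of far classes of power products of composite polynomials
-/

set_option autoImplicit false

namespace Pool.Agent.TH710.FF

open MvPolynomial Pool.Agent.H530R2 Pool.Agent.W936.RO Pool.Agent.W936.WB
open Pool.Agent.H626R2.Loc (evG evT)
open Pool.Agent.Results.MP_c2aa42_lc.SumsOfSparseFormulas

/-- A pattern for the polynomials `g_j`: a matrix of natural numbers whose `j`-th column has sum
at most the degree of `g_j`, such that the product `∏ g_j ^ f_j` is constant, for `f ∈ ℤ^p`, if and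
only if `f` is orthogonal to all rows. -/
def Pattern {N p q : ℕ} (g : Fin p → MvPolynomial (Fin N) ℂ) (φ : Fin q → Fin p → ℕ) : Prop :=
  (∀ j, ∑ x, φ x j ≤ (g j).totalDegree) ∧
  ∀ f : Fin p → ℤ, (∀ x, ∑ j, f j * (φ x j : ℤ) = 0) ↔
    ∃ c : ℂ, ∏ j, g j ^ (f j).toNat = C c * ∏ j, g j ^ (-(f j)).toNat

/-- The power products with the exponents `a` and `b` are far from each other: the vector `a - b`
is mapped to a large vector by all patterns. -/
def Far {N p : ℕ} (m : ℕ) (g : Fin p → MvPolynomial (Fin N) ℂ) (a b : Fin p → ℕ) : Prop :=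
  ∀ (q : ℕ) (φ : Fin q → Fin p → ℕ), Pattern g φ →
    2 * (m : ℤ) ^ 2 * ∑ j, ((g j).totalDegree : ℤ) < ∑ x, |∑ j, ((a j : ℤ) - b j) * φ x j|

/-- sums of far classes of power products -/
def FarSum (w s D t κ : ℕ) {N : ℕ} (f : MvPolynomial (Fin N) ℂ) : Prop :=
  ∃ (m p : ℕ) (g : Fin p → MvPolynomial (Fin N) ℂ) (e : Fin m → Fin p → ℕ) (c : Fin m → ℂ)
    (lab : Fin m → ℕ),
    (∀ j, g j ≠ 0 ∧ Composite w s D t (g j)) ∧
    (∀ i i', lab i ≠ lab i' → Far m g (e i) (e i')) ∧
    (∀ u : Fin (κ + 1) → Fin m, (∀ a b, lab (u a) = lab (u b)) →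
      ¬ AlgebraicIndependent ℂ (fun a => ∏ j, g j ^ e (u a) j)) ∧
    f = ∑ i, C (c i) * ∏ j, g j ^ e i j

theorem totalDegree_sext {n : ℕ} (f : MvPolynomial (Fin n) ℂ) :
    (sext f).totalDegree = f.totalDegree := by
  rw [totalDegree, totalDegree, support_map_of_injective _ (algebraMap ℂ (RatFunc ℂ)).injective]

theorem prod_ms {n p : ℕ} (g : Fin p → MvPolynomial (Fin n) ℂ) (e : Fin p → ℕ) :
    (∑ j, Multiset.replicate (e j) (g j)).prod = ∏ j, g j ^ e j := by
  rw [Multiset.prod_sum]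
  exact Finset.prod_congr rfl fun j _ => Multiset.prod_replicate _ _

theorem sext_prod {n p : ℕ} (g : Fin p → MvPolynomial (Fin n) ℂ) (e : Fin p → ℕ) :
    sext (∏ j, g j ^ e j) = ∏ j, sext (g j) ^ e j := by
  rw [map_prod]
  exact Finset.prod_congr rfl fun j _ => map_pow _ _ _

theorem sext_sum {n m p : ℕ} (g : Fin p → MvPolynomial (Fin n) ℂ) (e : Fin m → Fin p → ℕ)
    (c : Fin m → ℂ) (s : Finset (Fin m)) :
    sext (∑ i ∈ s, C (c i) * ∏ j, g j ^ e i j) =
      ∑ i ∈ s, C (algebraMap ℂ (RatFunc ℂ) (c i)) * ∏ j, sext (g j) ^ e i j := by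
  rw [map_sum]
  refine Finset.sum_congr rfl fun i _ => ?_
  rw [map_mul, map_C, sext_prod]

theorem const_iff {n p : ℕ} (g : Fin p → MvPolynomial (Fin n) ℂ) (hg : ∀ j, g j ≠ 0)
    (f : Fin p → ℤ) :
    (∃ c : RatFunc ℂ, ∏ j, sext (g j) ^ (f j).toNat = C c * ∏ j, sext (g j) ^ (-(f j)).toNat) ↔
      ∃ c : ℂ, ∏ j, g j ^ (f j).toNat = C c * ∏ j, g j ^ (-(f j)).toNat := by
  have hne : ∀ e : Fin p → ℕ, ∏ j, g j ^ e j ≠ 0 := fun e =>
    Finset.prod_ne_zero_iff.2 fun j _ => pow_ne_zero _ (hg j)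
  constructor
  · rintro ⟨c, hc⟩
    by_contra hcon
    push Not at hcon
    refine comb_ne (hne _) (hne _) hcon 1 c (Or.inl one_ne_zero) ?_
    rw [sext_prod, sext_prod, C_1, one_mul, hc, sub_self]
  · rintro ⟨c, hc⟩
    refine ⟨algebraMap ℂ (RatFunc ℂ) c, ?_⟩
    rw [← sext_prod, ← sext_prod, hc, map_mul, map_C]

theorem far_hitB (w D κ : ℕ) : ∃ A m : ℕ, ∀ n s t : ℕ, ∀ β : Fin n → Polynomial ℂ,
    (∀ h : MvPolynomial (Fin n) ℂ, h ≠ 0 → h.support.card ≤ (s + 2) ^ A → aeval β h ≠ 0) →
    ∀ f : MvPolynomial (Fin n) ℂ, FarSum w s D t κ f → f ≠ 0 →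
      evG ℂ β (m * (t + 1)) f ≠ 0 := by
  classical
  obtain ⟨A1, m1, h1⟩ := sums_hitF w D κ
  obtain ⟨A2, m2, h2⟩ := pair_hitF w D
  obtain ⟨A3, m3, h3⟩ := sums_hitF w D 1
  refine ⟨A1 + A2 + A3, (m1 + m2 + m3) + (m1 + m2 + m3), fun n s t β hβ f hf hf0 hz => hf0 ?_⟩
  have hs : 1 ≤ s + 2 := by omega
  have hβ1 : ∀ h : MvPolynomial (Fin n) ℂ, h ≠ 0 → h.support.card ≤ (s + 2) ^ A1 →
      aeval β h ≠ 0 := fun h h0 hc => hβ h h0 (hc.trans (Nat.pow_le_pow_right hs (by omega)))
  have hβ2 : ∀ h : MvPolynomial (Fin n) ℂ, h ≠ 0 → h.support.card ≤ (s + 2) ^ A2 →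
      aeval β h ≠ 0 := fun h h0 hc => hβ h h0 (hc.trans (Nat.pow_le_pow_right hs (by omega)))
  have hβ3 : ∀ h : MvPolynomial (Fin n) ℂ, h ≠ 0 → h.support.card ≤ (s + 2) ^ A3 →
      aeval β h ≠ 0 := fun h h0 hc => hβ h h0 (hc.trans (Nat.pow_le_pow_right hs (by omega)))
  set v := (m1 + m2 + m3) * (t + 1) with hv
  have hv1 : m1 * (t + 1) ≤ v := Nat.mul_le_mul_right _ (by omega)
  have hv2 : m2 * (t + 1) ≤ v := Nat.mul_le_mul_right _ (by omega)
  have hv3 : m3 * (t + 1) ≤ v := Nat.mul_le_mul_right _ (by omega)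
  obtain ⟨m, p, g, e, c, lab, hg, hfar, hrk, rfl⟩ := hf
  rw [add_mul, ← hv, evG_zer, sext_sum] at hz
  have hsplit := split (v := v) (rpt β) (fun j => sext (g j)) (fun j hc => ?_) e lab
    (fun f => ?_) (fun i i' hii q φ hcol hpat => ?_)
    (fun i => algebraMap ℂ (RatFunc ℂ) (c i)) hz
  · -- the class sums vanish
    have hcls : ∀ l, ∑ i ∈ Finset.univ.filter (fun i => lab i = l),
        C (c i) * ∏ j, g j ^ e i j = 0 := by
      intro l
      by_contra hne
      set T : Fin m → Multiset (MvPolynomial (Fin n) ℂ) := fun i =>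
        if lab i = l then ∑ j, Multiset.replicate (e i j) (g j) else 0 with hT
      have hTl : ∀ i, lab i = l → (T i).prod = ∏ j, g j ^ e i j := by
        intro i hi
        simp only [hT, if_pos hi]
        exact prod_ms g (e i)
      refine h1 n s t β hβ1 m T ?_ ?_ (sext (∑ i ∈ Finset.univ.filter (fun i => lab i = l),
        C (c i) * ∏ j, g j ^ e i j)) ?_ (fun h => hne (ext_inj (by rw [h, map_zero]))) ?_
      · intro i h hh
        by_cases hi : lab i = l
        · simp only [hT, if_pos hi, Multiset.mem_sum, Finset.mem_univ, true_and] at hh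
          obtain ⟨j, hj⟩ := hh
          rw [Multiset.eq_of_mem_replicate hj]
          exact (hg j).2
        · simp only [hT, if_neg hi] at hh
          exact absurd hh (Multiset.notMem_zero _)
      · intro u hu
        by_cases hall : ∀ a, lab (u a) = l
        · apply hrk u (fun a b => (hall a).trans (hall b).symm)
          simpa only [hTl _ (hall _)] using hu
        · push Not at hall
          obtain ⟨a, ha⟩ := hall
          have h4 := hu.transcendental a
          simp only [hT, if_neg ha, Multiset.prod_zero] at h4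
          exact h4 isAlgebraic_one
      · rw [sext_sum]
        refine Subalgebra.sum_mem _ fun i hi => Subalgebra.mul_mem _
          (Subalgebra.algebraMap_mem _ _) ?_
        rw [← sext_prod, ← hTl i (Finset.mem_filter.1 hi).2]
        exact Algebra.subset_adjoin (Set.mem_range_self i)
      · rw [sext_sum]
        exact zer_mono (hv1.trans (Nat.le_add_right v v)) (hsplit l)
    rw [← Finset.sum_fiberwise_of_maps_to (s := Finset.univ) (t := Finset.univ.image lab) (g := lab)
      (fun i hi => Finset.mem_image_of_mem lab hi)]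
    exact Finset.sum_eq_zero fun l _ => hcls l
  · -- the bases
    refine h3 n s t β hβ3 1 (fun _ => {g j}) (fun _ h hh => ?_) (fun u hu => ?_) (sext (g j)) ?_
      (fun h => (hg j).1 (ext_inj (by rw [h, map_zero])))
      (zer_mono (hv3.trans (Nat.le_add_right v v)) hc)
    · rw [Multiset.mem_singleton] at hh
      rw [hh]
      exact (hg j).2
    · have h5 : Function.Injective u := fun x y hxy => hu.injective (by simp only)
      have h6 := Fintype.card_le_of_injective u h5
      rw [Fintype.card_fin, Fintype.card_fin] at h6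
      omega
    · refine Algebra.subset_adjoin ⟨0, ?_⟩
      simp only [Multiset.prod_singleton]
  · -- constant or not
    by_cases hf : ∃ c : ℂ, ∏ j, g j ^ (f j).toNat = C c * ∏ j, g j ^ (-(f j)).toNat
    · exact Or.inl ((const_iff g (fun j => (hg j).1) f).2 hf)
    · right
      push Not at hf
      intro a b hab hc
      refine h2 n s t β hβ2 (∑ j, Multiset.replicate (f j).toNat (g j))
        (∑ j, Multiset.replicate (-(f j)).toNat (g j)) ?_ ?_ ?_ a b hab ?_
      · intro h hh
        simp only [Multiset.mem_sum, Finset.mem_univ, true_and] at hh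
        obtain ⟨j, hj⟩ := hh
        rw [Multiset.eq_of_mem_replicate hj]
        exact ⟨(hg j).2, (hg j).1⟩
      · intro h hh
        simp only [Multiset.mem_sum, Finset.mem_univ, true_and] at hh
        obtain ⟨j, hj⟩ := hh
        rw [Multiset.eq_of_mem_replicate hj]
        exact ⟨(hg j).2, (hg j).1⟩
      · intro c
        rw [prod_ms, prod_ms]
        exact hf c
      · rw [prod_ms, prod_ms, sext_prod, sext_prod]
        exact zer_mono hv2 hc
  · -- far products
    simp only [totalDegree_sext] at hcol ⊢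
    exact hfar i i' hii q φ ⟨hcol, fun f => (hpat f).trans (const_iff g (fun j => (hg j).1) f)⟩

end Pool.Agent.TH710.FF
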