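import Mathlib
import Pool.Agent.TH710.FF.Class

/-!
# Examples of power products that are far from each other
-/

set_option autoImplicit false

namespace Pool.Agent.TH710.FF

open MvPolynomial

section cramer

/-- bound for a determinant by the sums of the columns -/
theorem abs_det_le {p : ℕ} (N : Matrix (Fin p) (Fin p) ℤ) : |N.det| ≤ ∏ j, ∑ x, |N x j| := by
  classical
  rw [Matrix.det_apply]
  refine (Finset.abs_sum_le_sum_abs _ _).trans ?_
  have h1 : ∀ σ : Equiv.Perm (Fin p), |Equiv.Perm.sign σ • ∏ i, N (σ i) i| =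
      ∏ i, |N (σ i) i| := by
    intro σ
    rw [Units.smul_def, smul_eq_mul, abs_mul, Finset.abs_prod]
    rcases Int.units_eq_one_or (Equiv.Perm.sign σ) with h | h <;> rw [h] <;> simp
  rw [Finset.sum_congr rfl fun σ _ => h1 σ, Finset.prod_univ_sum, Fintype.piFinset_univ]
  have h2 : ∀ F : (Fin p → Fin p) → ℤ, (∀ f, 0 ≤ F f) →
      ∑ σ : Equiv.Perm (Fin p), F (fun i => σ i) ≤ ∑ f, F f := by
    intro F hF
    let ι : Equiv.Perm (Fin p) ↪ (Fin p → Fin p) :=
      ⟨fun σ i => σ i, fun σ τ h => Equiv.ext fun x => congrFun h x⟩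
    have h3 : ∑ σ : Equiv.Perm (Fin p), F (fun i => σ i) = ∑ f ∈ Finset.univ.map ι, F f := by
      rw [Finset.sum_map]
      rfl
    rw [h3]
    exact Finset.sum_le_sum_of_subset_of_nonneg (Finset.subset_univ _) fun f _ _ => hF f
  exact h2 (fun f => ∏ i, |N (f i) i|) fun f => Finset.prod_nonneg fun i _ => abs_nonneg _

/-- a matrix with trivial kernel has a nonsingular minor -/
theorem exists_rows {q p : ℕ} (Φ : Matrix (Fin q) (Fin p) ℚ)
    (h : ∀ v : Fin p → ℚ, Φ.mulVec v = 0 → v = 0) :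
    ∃ r : Fin p → Fin q, (Φ.submatrix r id).det ≠ 0 := by
  classical
  have hspan : Submodule.span ℚ (Set.range fun x => Φ x) = ⊤ := by
    by_contra hne
    obtain ⟨f, hf0, hf⟩ := Submodule.exists_le_ker_of_lt_top _ (lt_top_iff_ne_top.2 hne)
    apply hf0
    have hfv : ∀ y : Fin p → ℚ, f y = ∑ j, y j * f (Pi.single j 1) := by
      intro y
      conv_lhs => rw [← Finset.univ_sum_single y]
      rw [map_sum]
      refine Finset.sum_congr rfl fun j _ => ?_
      have h1 : (Pi.single j (y j) : Fin p → ℚ) = y j • Pi.single j 1 := by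
        rw [← Pi.single_smul, smul_eq_mul, mul_one]
      rw [h1, map_smul, smul_eq_mul]
    have h2 : (fun j => f (Pi.single j 1)) = (0 : Fin p → ℚ) := by
      apply h
      funext x
      show ∑ j, Φ x j * f (Pi.single j 1) = 0
      rw [← hfv]
      exact LinearMap.mem_ker.1 (hf (Submodule.subset_span ⟨x, rfl⟩))
    refine LinearMap.ext fun y => ?_
    rw [hfv, LinearMap.zero_apply]
    exact Finset.sum_eq_zero fun j _ => by rw [congrFun h2 j]; simp
  obtain ⟨b, hb, hbspan, hbind⟩ := exists_linearIndependent ℚ (Set.range fun x => Φ x)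
  rw [hspan] at hbspan
  let B : Module.Basis b ℚ (Fin p → ℚ) := Module.Basis.mk hbind (by
    rw [Subtype.range_coe, hbspan])
  have hfin : Finite b := Module.Finite.finite_basis B
  have := Fintype.ofFinite b
  have hcard : Fintype.card b = p := by
    rw [← Module.finrank_eq_card_basis B, Module.finrank_fin_fun]
  let ε : Fin p ≃ b := (Fintype.equivFinOfCardEq hcard).symm
  choose r hr using fun k : Fin p => hb (ε k).2
  refine ⟨r, ?_⟩
  have hli : LinearIndependent ℚ (Φ.submatrix r id).row := by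
    have h3 : (Φ.submatrix r id).row = Subtype.val ∘ ε := by
      funext k
      exact hr k
    rw [h3]
    exact hbind.comp ε ε.injective
  rw [Matrix.linearIndependent_rows_iff_isUnit, Matrix.isUnit_iff_isUnit_det] at hli
  exact hli.ne_zero

/-- a vector is bounded by its image under a matrix with trivial kernel -/
theorem cramer_bound {q p : ℕ} (φ : Fin q → Fin p → ℕ)
    (h : ∀ f : Fin p → ℤ, (∀ x, ∑ j, f j * (φ x j : ℤ) = 0) → f = 0) (d : Fin p → ℤ)
    (j0 : Fin p) :
    |d j0| ≤ (∏ j ∈ Finset.univ.erase j0, ∑ x, (φ x j : ℤ)) * ∑ x, |∑ j, d j * (φ x j : ℤ)| := by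
  classical
  obtain ⟨r, hr⟩ := exists_rows (Matrix.of fun x j => (φ x j : ℚ)) (by
    intro v hv
    -- clear the denominators
    set N : ℕ := ∏ j, (v j).den with hN
    have hN0 : (N : ℚ) ≠ 0 := by
      rw [hN]
      exact_mod_cast Finset.prod_ne_zero_iff.2 fun j _ => (v j).den_nz
    have hint : ∀ j, ∃ z : ℤ, (z : ℚ) = N * v j := by
      intro j
      refine ⟨((∏ j' ∈ Finset.univ.erase j, (v j').den : ℕ) : ℤ) * (v j).num, ?_⟩
      rw [hN, ← Finset.mul_prod_erase Finset.univ (fun j => (v j).den) (Finset.mem_univ j)]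
      push_cast
      have h1 : ((v j).den : ℚ) * v j = (v j).num := by
        rw [mul_comm]; exact Rat.mul_den_eq_num (v j)
      rw [← h1]
      ring
    choose z hz using hint
    have hz0 := h z (by
      intro x
      have h1 := congrFun hv x
      have h2 : ∑ j, (φ x j : ℚ) * v j = 0 := h1
      have h3 : ((∑ j, z j * (φ x j : ℤ) : ℤ) : ℚ) = N * ∑ j, (φ x j : ℚ) * v j := by
        push_cast
        rw [Finset.mul_sum]
        refine Finset.sum_congr rfl fun j _ => ?_
        rw [hz]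
        ring
      rw [h2, mul_zero] at h3
      exact_mod_cast h3)
    funext j
    have h4 := hz j
    rw [hz0] at h4
    simp only [Pi.zero_apply, Int.cast_zero] at h4
    exact (mul_eq_zero.1 h4.symm).resolve_left hN0)
  set M : Matrix (Fin p) (Fin p) ℤ := Matrix.of fun k j => (φ (r k) j : ℤ) with hM
  have hMdet : M.det ≠ 0 := by
    intro h0
    apply hr
    have h1 : (Matrix.of fun x j => (φ x j : ℚ)).submatrix r id =
        (Int.castRingHom ℚ).mapMatrix M := by
      ext k j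
      simp [hM]
    rw [h1, ← RingHom.map_det, h0, map_zero]
  have hrinj : Function.Injective r := by
    intro k k' hkk
    by_contra hne
    apply hMdet
    refine Matrix.det_zero_of_row_eq hne ?_
    funext j
    simp only [hM, Matrix.of_apply, hkk]
  have hcr : (M.updateCol j0 (M.mulVec d)).det = M.det * d j0 := by
    rw [← Matrix.cramer_apply, Matrix.cramer_eq_adjugate_mulVec, Matrix.mulVec_mulVec,
      Matrix.adjugate_mul, Matrix.smul_mulVec, Matrix.one_mulVec]
    rfl
  have h1 : |d j0| ≤ |M.det * d j0| := by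
    rw [abs_mul]
    exact le_mul_of_one_le_left (abs_nonneg _) (Int.one_le_abs hMdet)
  refine h1.trans ?_
  rw [← hcr]
  refine (abs_det_le _).trans ?_
  rw [← Finset.mul_prod_erase Finset.univ _ (Finset.mem_univ j0), mul_comm]
  have hmono : ∀ F : Fin q → ℤ, (∀ x, 0 ≤ F x) → ∑ k, F (r k) ≤ ∑ x, F x := by
    intro F hF
    rw [← Finset.sum_image (s := Finset.univ) (g := r) (f := F) (fun a _ b _ hab => hrinj hab)]
    exact Finset.sum_le_sum_of_subset_of_nonneg (Finset.subset_univ _) fun x _ _ => hF x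
  refine mul_le_mul ?_ ?_ (Finset.sum_nonneg fun _ _ => abs_nonneg _)
    (Finset.prod_nonneg fun _ _ => Finset.sum_nonneg fun _ _ => Int.natCast_nonneg _)
  · refine Finset.prod_le_prod (fun _ _ => Finset.sum_nonneg fun _ _ => abs_nonneg _) ?_
    intro j hj
    have hjj : j ≠ j0 := (Finset.mem_erase.1 hj).1
    refine le_trans (le_of_eq (Finset.sum_congr rfl fun k _ => ?_))
      (hmono (fun x => (φ x j : ℤ)) fun x => Int.natCast_nonneg _)
    rw [Matrix.updateCol_ne hjj, hM, Matrix.of_apply, Nat.abs_cast]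
  · refine le_trans (le_of_eq (Finset.sum_congr rfl fun k _ => ?_))
      (hmono (fun x => |∑ j, d j * (φ x j : ℤ)|) fun x => abs_nonneg _)
    rw [Matrix.updateCol_self]
    simp only [Matrix.mulVec, dotProduct, hM, Matrix.of_apply]
    congr 1
    exact Finset.sum_congr rfl fun j _ => mul_comm _ _

end cramer

variable {N p m : ℕ} {g : Fin p → MvPolynomial (Fin N) ℂ} {a b : Fin p → ℕ}

/-- Approximate multiples by a large number of a vector with nonconstant power product. -/
theorem far_of_multiple (μ : ℚ) (f : Fin p → ℤ)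
    (hμ : ∑ j, (2 * (m : ℚ) ^ 2 + |(a j : ℚ) - b j - μ * f j|) * (g j).totalDegree < μ)
    (hf : ∀ c : ℂ, ∏ j, g j ^ (f j).toNat ≠ C c * ∏ j, g j ^ (-(f j)).toNat) : Far m g a b := by
  classical
  intro q φ hφ
  obtain ⟨hcol, hpat⟩ := hφ
  have hex : ∃ x, ∑ j, f j * (φ x j : ℤ) ≠ 0 := by
    by_contra hcon
    push Not at hcon
    obtain ⟨c, hc⟩ := (hpat f).1 hcon
    exact hf c hc
  obtain ⟨x, hx⟩ := hex
  set D : Fin p → ℚ := fun j => ((g j).totalDegree : ℚ) with hD
  have hφD : ∀ j, (φ x j : ℚ) ≤ D j := by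
    intro j
    have h1 : φ x j ≤ (g j).totalDegree :=
      (Finset.single_le_sum (f := fun x => φ x j) (fun _ _ => Nat.zero_le _)
        (Finset.mem_univ x)).trans (hcol j)
    show (φ x j : ℚ) ≤ ((g j).totalDegree : ℚ)
    exact_mod_cast h1
  have hD0 : ∀ j, 0 ≤ D j := fun j => Nat.cast_nonneg _
  set S : ℤ := ∑ j, f j * (φ x j : ℤ) with hS
  have hS1 : (1 : ℚ) ≤ |(S : ℚ)| := by
    have : (1 : ℤ) ≤ |S| := Int.one_le_abs hx
    exact_mod_cast this
  have hdiff : ((∑ j, ((a j : ℤ) - b j) * (φ x j : ℤ) : ℤ) : ℚ) = μ * (S : ℚ) +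
      ∑ j, ((a j : ℚ) - b j - μ * f j) * (φ x j : ℚ) := by
    rw [hS]
    push_cast
    rw [Finset.mul_sum, ← Finset.sum_add_distrib]
    refine Finset.sum_congr rfl fun j _ => ?_
    ring
  have hsplit : ∑ j, (2 * (m : ℚ) ^ 2 + |(a j : ℚ) - b j - μ * f j|) * (g j).totalDegree =
      2 * (m : ℚ) ^ 2 * ∑ j, D j + ∑ j, |(a j : ℚ) - b j - μ * f j| * D j := by
    rw [Finset.mul_sum, ← Finset.sum_add_distrib]
    exact Finset.sum_congr rfl fun j _ => by ring
  rw [hsplit] at hμ
  have habs : |∑ j, ((a j : ℚ) - b j - μ * f j) * (φ x j : ℚ)| ≤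
      ∑ j, |(a j : ℚ) - b j - μ * f j| * D j := by
    refine (Finset.abs_sum_le_sum_abs _ _).trans (Finset.sum_le_sum fun j _ => ?_)
    rw [abs_mul, Nat.abs_cast]
    exact mul_le_mul_of_nonneg_left (hφD j) (abs_nonneg _)
  have hpos : 0 ≤ ∑ j, |(a j : ℚ) - b j - μ * f j| * D j :=
    Finset.sum_nonneg fun j _ => mul_nonneg (abs_nonneg _) (hD0 j)
  have hpos2 : 0 ≤ 2 * (m : ℚ) ^ 2 * ∑ j, D j :=
    mul_nonneg (by positivity) (Finset.sum_nonneg fun j _ => hD0 j)
  have hμ0 : 0 < μ := by linarith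
  have hbig : μ ≤ |μ * (S : ℚ)| := by
    rw [abs_mul, abs_of_pos hμ0]
    nlinarith
  have hlarge : 2 * (m : ℚ) ^ 2 * ∑ j, D j <
      |((∑ j, ((a j : ℤ) - b j) * (φ x j : ℤ) : ℤ) : ℚ)| := by
    rw [hdiff]
    have h1 := abs_sub_abs_le_abs_sub (μ * (S : ℚ))
      (-∑ j, ((a j : ℚ) - b j - μ * f j) * (φ x j : ℚ))
    rw [sub_neg_eq_add, abs_neg] at h1
    linarith
  have hlarge' : 2 * (m : ℤ) ^ 2 * ∑ j, ((g j).totalDegree : ℤ) <
      |∑ j, ((a j : ℤ) - b j) * (φ x j : ℤ)| := by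
    have h1 : ((2 * (m : ℤ) ^ 2 * ∑ j, ((g j).totalDegree : ℤ) : ℤ) : ℚ) <
        ((|∑ j, ((a j : ℤ) - b j) * (φ x j : ℤ)| : ℤ) : ℚ) := by
      rw [Int.cast_abs]
      refine lt_of_le_of_lt (le_of_eq ?_) hlarge
      push_cast
      rfl
    exact_mod_cast h1
  refine lt_of_lt_of_le hlarge' ?_
  exact Finset.single_le_sum (f := fun x => |∑ j, ((a j : ℤ) - b j) * (φ x j : ℤ)|)
    (fun _ _ => abs_nonneg _) (Finset.mem_univ x)

/-- Multiplicatively independent bases: one large difference of the exponents is enough. -/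
theorem far_of_independent (hind : ∀ f : Fin p → ℤ, f ≠ 0 →
      ∀ c : ℂ, ∏ j, g j ^ (f j).toNat ≠ C c * ∏ j, g j ^ (-(f j)).toNat) (j0 : Fin p)
    (h : 2 * (m : ℤ) ^ 2 * (∑ j, ((g j).totalDegree : ℤ)) *
      ∏ j ∈ Finset.univ.erase j0, ((g j).totalDegree : ℤ) < |(a j0 : ℤ) - b j0|) :
    Far m g a b := by
  classical
  intro q φ hφ
  obtain ⟨hcol, hpat⟩ := hφ
  by_contra hcon
  push Not at hcon
  have h1 := cramer_bound φ (fun f hf => by
    by_contra hne
    obtain ⟨c, hc⟩ := (hpat f).1 hf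
    exact hind f hne c hc) (fun j => (a j : ℤ) - b j) j0
  have h2 : ∏ j ∈ Finset.univ.erase j0, ∑ x, (φ x j : ℤ) ≤
      ∏ j ∈ Finset.univ.erase j0, ((g j).totalDegree : ℤ) := by
    refine Finset.prod_le_prod (fun j _ => Finset.sum_nonneg fun _ _ => Int.natCast_nonneg _) ?_
    intro j _
    exact_mod_cast hcol j
  have h3 : 0 ≤ ∑ x, |∑ j, ((a j : ℤ) - b j) * (φ x j : ℤ)| :=
    Finset.sum_nonneg fun _ _ => abs_nonneg _
  have h4 : 0 ≤ ∏ j ∈ Finset.univ.erase j0, ((g j).totalDegree : ℤ) :=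
    Finset.prod_nonneg fun _ _ => Int.natCast_nonneg _
  have h5 := mul_le_mul h2 hcon h3 h4
  have h6 := h1.trans h5
  rw [mul_comm] at h6
  exact absurd h (not_lt.2 h6)

end Pool.Agent.TH710.FF
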