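import Mathlib
import Pool.Agent.TH710.FF.Class
import Pool.Agent.W936.SP.Main

/-!
# Circuits of exponential degree: far classes of power products of composite polynomials
-/

set_option autoImplicit false

namespace Pool.Agent.TH710.FF

open MvPolynomial Pool.Agent.NPC Pool.Agent.H531R2 Pool.Agent.W936 Pool.Agent.W936.SP

open Pool.Agent.H626R2.Loc (evG)

open Pool.Agent.Results.MP_c2aa42_lc.SumsOfSparseFormulas (Composite)

/-- `F` is a rational combination `∑ c_i T_i` of `m ≤ n` power products `T_i = ∏_j g_j ^ e_ij` of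
`p ≤ n` nonzero polynomials `g_j` in `n` variables with integer coefficients, of degree at most `n`,
with coefficients whose absolute values add up to at most `2 ^ n`, which are composite:
`Composite w n D t`. The exponents `e_ij` are at most `2 ^ n`, the `c_i` are arbitrary rational
numbers. The products are divided into classes (`i` is in the class `lab i`); products of different
classes are far from each other, and no `κ + 1` products of one class are algebraically
independent. -/
def Few (w D t κ n : ℕ) (F : MvPolynomial (Fin n) ℚ) : Prop :=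
  ∃ (m p : ℕ) (g : Fin p → MvPolynomial (Fin n) ℤ) (e : Fin m → Fin p → ℕ) (c : Fin m → ℚ)
    (lab : Fin m → ℕ), m ≤ n ∧ p ≤ n ∧
    (∀ j, g j ≠ 0 ∧ (g j).totalDegree ≤ n ∧
      ∑ a ∈ (g j).support, (coeff a (g j)).natAbs ≤ 2 ^ n ∧
      Composite w n D t (map (Int.castRingHom ℂ) (g j))) ∧
    (∀ i j, e i j ≤ 2 ^ n) ∧
    (∀ i i', lab i ≠ lab i' → Far m (fun j => map (Int.castRingHom ℂ) (g j)) (e i) (e i')) ∧
    (∀ u : Fin (κ + 1) → Fin m, (∀ x y, lab (u x) = lab (u y)) → ¬ AlgebraicIndependent ℂ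
      (fun x => ∏ j, map (Int.castRingHom ℂ) (g j) ^ e (u x) j)) ∧
    F = ∑ i, C (c i) * ∏ j, map (Int.castRingHom ℚ) (g j) ^ e i j

/-- Up to the names of its at most `n` variables, `f` is an integer polynomial `f'` which divides,
over the rational numbers, a product of `n` nonzero polynomials with `Few w D t κ n`, and for all
prime numbers `p > n` with at most `n` exceptions, the power `p ^ (n + 1)` does not divide all
coefficients of `f'`. -/
def Tame (w D t κ n : ℕ) (f : MvPolynomial ℕ ℤ) : Prop :=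
  ∃ (σ : Fin n → ℕ) (f' : MvPolynomial (Fin n) ℤ), Function.Injective σ ∧ f = rename σ f' ∧
    (∃ Q : Finset ℕ, Q.card ≤ n ∧
      ∀ p : ℕ, p.Prime → n < p → p ∉ Q → ¬ (C ((p : ℤ) ^ (n + 1)) ∣ f')) ∧
    ∃ F : Fin n → MvPolynomial (Fin n) ℚ, (∀ a, F a ≠ 0 ∧ Few w D t κ n (F a)) ∧
      map (Int.castRingHom ℚ) f' ∣ ∏ a, F a

theorem farSum_ren {w s D t κ n M : ℕ} (hw : 1 ≤ w) {τ : Fin n → Fin M}
    (hτ : Function.Injective τ) {f : MvPolynomial (Fin n) ℂ} (h : FarSum w s D t κ f) :
    FarSum w s D t κ (rename τ f) := by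
  classical
  obtain ⟨m, p, g, e, c, lab, hg, hfar, hrk, rfl⟩ := h
  have hinj := rename_injective (R := ℂ) τ hτ
  have hprod : ∀ u : Fin p → ℕ, ∏ j, rename τ (g j) ^ u j = rename τ (∏ j, g j ^ u j) := by
    intro u
    rw [map_prod]
    exact Finset.prod_congr rfl fun j _ => (map_pow _ _ _).symm
  refine ⟨m, p, fun j => rename τ (g j), e, c, lab, ?_, ?_, ?_, ?_⟩
  · intro j
    refine ⟨fun h0 => (hg j).1 (hinj ?_), compS_ren hw hτ (hg j).2⟩
    rw [map_zero]
    exact h0
  · intro i i' hii q φ hφ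
    refine lt_of_le_of_lt (mul_le_mul_of_nonneg_left (Finset.sum_le_sum fun j _ => ?_)
      (by positivity)) (hfar i i' hii q φ ⟨fun j => ?_, fun f => ?_⟩)
    · exact_mod_cast totalDegree_rename_le τ (g j)
    · exact (hφ.1 j).trans (totalDegree_rename_le τ (g j))
    · rw [hφ.2 f]
      constructor
      · rintro ⟨c, hc⟩
        refine ⟨c, hinj ?_⟩
        rw [hprod, hprod] at hc
        rw [map_mul, rename_C]
        exact hc
      · rintro ⟨c, hc⟩
        refine ⟨c, ?_⟩
        rw [hprod, hprod, hc, map_mul, rename_C]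
  · intro u hu hind
    apply hrk u hu
    simp only [hprod] at hind
    exact AlgebraicIndependent.of_comp (rename τ) hind
  · rw [map_sum]
    refine Finset.sum_congr rfl fun i _ => ?_
    rw [map_mul, rename_C, hprod]

theorem prod_pad {M : Type*} [CommMonoid M] {p n : ℕ} (hp : p ≤ n) (F : Fin p → M) :
    ∏ j : Fin n, (if h : j.val < p then F ⟨j.val, h⟩ else 1) = ∏ j, F j := by
  obtain ⟨k, rfl⟩ := Nat.exists_eq_add_of_le hp
  rw [Fin.prod_univ_add]
  simp

theorem sum_pad {M : Type*} [AddCommMonoid M] {p n : ℕ} (hp : p ≤ n) (F : Fin p → M) :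
    ∑ j : Fin n, (if h : j.val < p then F ⟨j.val, h⟩ else 0) = ∑ j, F j := by
  obtain ⟨k, rfl⟩ := Nat.exists_eq_add_of_le hp
  rw [Fin.sum_univ_add]
  simp

theorem few_fewG {w D t κ n A v : ℕ} (hw : 1 ≤ w)
    (hv : ∀ (M : ℕ) (f : MvPolynomial (Fin M) ℂ), FarSum w n D t κ f → f ≠ 0 →
      evG ℂ (bC M (NB A n)) v f ≠ 0) (σ : Fin n → ℕ) (hσ : Function.Injective σ)
    {F : MvPolynomial (Fin n) ℚ} (hF0 : F ≠ 0) (hF : Few w D t κ n F) :
    FewG (gB v (NB A n)) n (rename σ F) := by
  classical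
  obtain ⟨m, p, g, e, c, lab, hm, hp, hg, he, hfar, hrk, rfl⟩ := hF
  have hm0 : 0 < m := by
    rcases Nat.eq_zero_or_pos m with h | h
    · subst h
      exact absurd (by simp) hF0
    · exact h
  set ι : Fin n → Fin m := fun i => if h : i.val < m then ⟨i.val, h⟩ else ⟨0, hm0⟩ with hι
  set gn : Fin n → MvPolynomial (Fin n) ℤ := fun j =>
    if h : ∃ h : j.val < p, ∃ i, e i ⟨j.val, h⟩ ≠ 0 then g ⟨j.val, h.1⟩ else 1 with hgn
  set en : Fin n → Fin n → ℕ := fun i j =>
    if h : j.val < p then e (ι i) ⟨j.val, h⟩ else 0 with hen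
  set cn : Fin n → ℚ := fun i => if h : i.val < m then c ⟨i.val, h⟩ else 0 with hcn
  have hgn1 : ∀ j, gn j = 1 ∨ ∃ h : j.val < p, gn j = g ⟨j.val, h⟩ := by
    intro j
    by_cases h : ∃ h : j.val < p, ∃ i, e i ⟨j.val, h⟩ ≠ 0
    · right
      exact ⟨h.1, by simp only [hgn, dif_pos h]⟩
    · left
      simp only [hgn, dif_neg h]
  have hprodn : ∀ {R : Type} [CommRing R] (θ : MvPolynomial (Fin n) ℤ →+* R) (i : Fin n),
      ∏ j, θ (gn j) ^ en i j = ∏ j, θ (g j) ^ e (ι i) j := by
    intro R _ θ i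
    rw [← prod_pad hp]
    refine Finset.prod_congr rfl fun j _ => ?_
    by_cases hj : j.val < p
    · simp only [hen, dif_pos hj]
      by_cases h : ∃ i, e i ⟨j.val, hj⟩ ≠ 0
      · have h' : ∃ h : j.val < p, ∃ i, e i ⟨j.val, h⟩ ≠ 0 := ⟨hj, h⟩
        simp only [hgn, dif_pos h']
      · have h1 : e (ι i) ⟨j.val, hj⟩ = 0 := by
          by_contra h2
          exact h ⟨_, h2⟩
        rw [h1, pow_zero, pow_zero]
    · simp only [hen, dif_neg hj, pow_zero]
  refine ⟨Finset.univ.image σ, fun j => rename σ (gn j), en, cn, ?_, ?_, ?_, ?_, ?_⟩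
  · refine Finset.card_image_le.trans ?_
    rw [Finset.card_univ, Fintype.card_fin]
  · intro j
    refine ⟨?_, (totalDegree_rename_le _ _).trans ?_, ?_⟩
    · refine (vars_rename σ (gn j)).trans ?_
      exact Finset.image_subset_image (Finset.subset_univ _)
    · rcases hgn1 j with h | ⟨h, h'⟩
      · rw [h, totalDegree_one]; exact Nat.zero_le _
      · rw [h']; exact (hg _).2.1
    · show nrm (rename σ (gn j)) ≤ 2 ^ n
      rcases hgn1 j with h | ⟨h, h'⟩
      · rw [h, map_one]
        exact nrm_one.trans Nat.one_le_two_pow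
      · rw [h']
        exact (nrm_rename_le σ _).trans (hg _).2.2.1
  · intro i j
    by_cases hj : j.val < p
    · simp only [hen, dif_pos hj]
      exact he _ _
    · simp only [hen, dif_neg hj]
      exact Nat.zero_le _
  · refine injB_of (fun N => {f | FarSum w n D t κ f})
      (fun N N' τ hτ f hf => farSum_ren hw hτ hf)
      (fun M f hf hf0 => hv M f hf hf0) σ hσ gn en ?_ ?_ ?_
    · intro j
      rcases hgn1 j with h | ⟨h, h'⟩
      · rw [h]; exact one_ne_zero
      · rw [h']; exact (hg _).1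
    · intro j
      by_cases h : ∃ h : j.val < p, ∃ i, e i ⟨j.val, h⟩ ≠ 0
      · right
        obtain ⟨hj, i, hi⟩ := h
        have hin : i.val < n := lt_of_lt_of_le i.isLt hm
        refine ⟨⟨i.val, hin⟩, ?_⟩
        have h1 : ι ⟨i.val, hin⟩ = i := by
          simp only [hι]
          rw [dif_pos i.isLt]
        simp only [hen, dif_pos hj, h1]
        exact hi
      · left
        simp only [hgn, dif_neg h]
    · intro δ
      refine ⟨m, p, fun j => map (Int.castRingHom ℂ) (g j), e, fun k =>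
        ((∑ i ∈ Finset.univ.filter (fun i => ι i = k), δ i : ℤ) : ℂ), lab, ?_, hfar, hrk, ?_⟩
      · intro j
        refine ⟨fun h0 => (hg j).1 (map_injective (Int.castRingHom ℂ) Int.cast_injective ?_),
          (hg j).2.2.2⟩
        rw [map_zero]
        exact h0
      · have h1 : toC n (∑ i, C (δ i) * ∏ j, gn j ^ en i j) =
            ∑ i, C ((δ i : ℤ) : ℂ) * ∏ j, map (Int.castRingHom ℂ) (g j) ^ e (ι i) j := by
          rw [toC, map_sum]
          refine Finset.sum_congr rfl fun i _ => ?_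
          rw [map_mul, map_C, map_prod, ← hprodn (map (Int.castRingHom ℂ)) i]
          congr 1
          exact Finset.prod_congr rfl fun j _ => map_pow _ _ _
        rw [h1, ← Finset.sum_fiberwise_of_maps_to (s := Finset.univ) (t := Finset.univ) (g := ι)
          (fun i _ => Finset.mem_univ _)]
        refine Finset.sum_congr rfl fun k _ => ?_
        show _ = C ((∑ i ∈ Finset.univ.filter (fun i => ι i = k), δ i : ℤ) : ℂ) *
          ∏ j, map (Int.castRingHom ℂ) (g j) ^ e k j
        rw [Int.cast_sum, map_sum, Finset.sum_mul]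
        refine Finset.sum_congr rfl fun i hi => ?_
        rw [(Finset.mem_filter.1 hi).2]
  · rw [map_sum, ← sum_pad hm]
    refine Finset.sum_congr rfl fun i _ => ?_
    by_cases hi : i.val < m
    · have h1 : ι i = ⟨i.val, hi⟩ := by
        simp only [hι]
        rw [dif_pos hi]
      simp only [hcn, dif_pos hi]
      rw [map_mul, rename_C, map_prod]
      congr 1
      have h2 := hprodn ((iQ : MvPolynomial ℕ ℤ →+* MvPolynomial ℕ ℚ).comp
        (rename σ : MvPolynomial (Fin n) ℤ →ₐ[ℤ] MvPolynomial ℕ ℤ).toRingHom) i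
      rw [h1] at h2
      refine Eq.trans ?_ h2.symm
      refine Finset.prod_congr rfl fun j _ => ?_
      rw [map_pow]
      congr 1
      exact (map_rename (Int.castRingHom ℚ) σ (g j)).symm
    · simp only [hcn, dif_neg hi, C_0, zero_mul]

theorem tame_tameG {w D t κ n A v : ℕ} (hw : 1 ≤ w)
    (hv : ∀ (M : ℕ) (f : MvPolynomial (Fin M) ℂ), FarSum w n D t κ f → f ≠ 0 →
      evG ℂ (bC M (NB A n)) v f ≠ 0) {f : MvPolynomial ℕ ℤ} (hf : Tame w D t κ n f) :
    TameG (gB v (NB A n)) n f := by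
  classical
  obtain ⟨σ, f', hσ, rfl, ⟨Q, hQ, hcont⟩, F, hF, hdvd⟩ := hf
  refine ⟨⟨Q, hQ, fun p hp hpn hpQ hd => hcont p hp hpn hpQ ?_⟩,
    fun a => rename σ (F a), fun a => ⟨fun h0 => (hF a).1 ?_, few_fewG hw hv σ hσ (hF a).1 (hF a).2⟩, ?_⟩
  · have h1 := map_dvd (killCompl hσ) hd
    rw [killCompl_rename_app, killCompl_C] at h1
    exact h1
  · exact rename_injective σ hσ (by rw [map_zero]; exact h0)
  · rw [map_rename, ← map_prod]
    exact map_dvd (rename σ) hdvd

/-- The main theorem. -/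
theorem main (w D t κ c : ℕ) (hw : 1 ≤ w) : ∃ A : List Bool → List Bool, PolyTime A ∧
    (∀ x, A x = [true] ∨ A x = [false]) ∧
    (∀ x ∈ ACIT, A x = [true]) ∧
    (∀ x, (∀ C : List Gate, WF C → bits C ≠ x) → A x = [false]) ∧
    ∀ C : List Gate, Tame w D t κ ((bits C).length ^ c) (cpoly C) →
      A (bits C) = [false] := by
  obtain ⟨k, m, hm⟩ := far_hitB w D κ
  obtain ⟨A, h1, h2, h3, h4, h5⟩ := main_theoremB (m * (t + 1)) k c
  refine ⟨A, h1, h2, h3, h4, fun C hC => h5 C (tame_tameG hw (fun M f hf hf0 => ?_) hC)⟩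
  exact hm M _ t (bC M _) (fun h h0 hs => bC_ne h0 hs) f hf hf0

end Pool.Agent.TH710.FF
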